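import Pool.Agent.Q289.Race.Final

/-!
# Non-uniform sources without non-transitive cycles of pattern races
-/

set_option autoImplicit false

namespace Pool.Agent.Results.MP_a69bcc_pr.NoCycle

open Pool.Agent.Q289.Race MeasureTheory

/-- the expected waiting time `E[τ_A] = ∑_n Pr(τ_A > n)` -/
noncomputable def meanWait {s : ℕ} (v : ProbVec s) (A : List (Fin s)) : ℝ :=
  ∑' n : ℕ, v.source.real {x | (n : ℕ∞) < tau A x}

/-- For every alphabet of at least `2^40 + 1` letters there is a full-support, non-uniform `p` for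
which no three nonempty words beat one another cyclically; in fact, for that `p`, a word beats
another one exactly when its expected waiting time is smaller. -/
theorem result : ∀ s : ℕ, 2 ^ 40 + 1 ≤ s → ∃ v : ProbVec s, v.FullSupport ∧ ¬ v.IsUniform ∧
    (∀ A B C : List (Fin s), A ≠ [] → B ≠ [] → C ≠ [] →
      ¬ (1 / 2 < race v A B ∧ 1 / 2 < race v B C ∧ 1 / 2 < race v C A)) ∧
    ∀ A B : List (Fin s), A ≠ [] → B ≠ [] →
      (1 / 2 < race v A B ↔ meanWait v A < meanWait v B) := by
  intro s hs
  obtain ⟨n, rfl⟩ : ∃ n, s = n + 1 := ⟨s - 1, by omega⟩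
  have hn' : 2 ^ 40 ≤ n := by omega
  have hn : (2 : ℝ) ^ 40 ≤ n := by exact_mod_cast hn'
  obtain ⟨q, hq2, _, hgood⟩ := exists_Good hn
  have hmean : ∀ A : List (Fin (n + 1)), A ≠ [] →
      meanWait (vec n q hq2) A = EE n A.length (uu A) (vv A) q := by
    intro A hA
    rw [← E_eq hn hq2 A hA]
    have h := ((vec n q hq2).ren (vec_full hn hq2) (vec_le hn hq2) A hA).hasSum_S
    rw [← h.tsum_eq]
    refine tsum_congr fun k => ?_
    change _ = (vec n q hq2).source.real (NoOcc A k)
    congr 1
    ext x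
    exact lt_tau
  have hiff : ∀ A B : List (Fin (n + 1)), A ≠ [] → B ≠ [] →
      (1 / 2 < race (vec n q hq2) A B ↔
        meanWait (vec n q hq2) A < meanWait (vec n q hq2) B) := by
    intro A B hA hB
    rw [hmean A hA, hmean B hB]
    exact race_iff hn hq2 hgood A B hA hB
  refine ⟨vec n q hq2, vec_full hn hq2, vec_nonuniform hn hq2 (by omega), ?_, hiff⟩
  rintro A B C hA hB hC ⟨h1, h2, h3⟩
  rw [hiff A B hA hB] at h1
  rw [hiff B C hB hC] at h2
  rw [hiff C A hC hA] at h3
  linarith

end Pool.Agent.Results.MP_a69bcc_pr.NoCycle
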